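import Pool.Agent.Helper859.VG.Main

set_option autoImplicit false
open Finset Filter Topology MeasureTheory

namespace Pool.Agent.Results.MP_dea278_an.SingularMultiplier

/-- Inner function: a bounded analytic function on the open unit disc whose radial boundary values exist and
have modulus `1` almost everywhere. -/
def IsInner (I : ℂ → ℂ) : Prop :=
  DifferentiableOn ℂ I (Metric.ball 0 1) ∧ (∃ M : ℝ, ∀ z ∈ Metric.ball (0 : ℂ) 1, ‖I z‖ ≤ M) ∧
    ∀ᵐ θ : ℝ ∂volume, ∃ w : ℂ, ‖w‖ = 1 ∧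
      Tendsto (fun r : ℝ => I ((r : ℂ) * Complex.exp ((θ : ℂ) * Complex.I))) (𝓝[<] 1) (𝓝 w)

/-- Fourier coefficients (over `ℤ`) of the boundary distribution of an analytic function on the disc: the Taylor
coefficients for `n ≥ 0`, and `0` for `n < 0`. -/
noncomputable def coef (I : ℂ → ℂ) (n : ℤ) : ℂ :=
  if 0 ≤ n then iteratedDeriv n.toNat I 0 / (n.toNat.factorial : ℂ) else 0

/-- Convolution on `ℤ` of a sequence with the (finitely supported) coefficient sequence of a trigonometric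
polynomial. -/
noncomputable def conv (φ : ℤ → ℂ) (a : ℤ →₀ ℂ) (n : ℤ) : ℂ := ∑ m ∈ a.support, φ (n - m) * a m

/-- `I ∈ M_pA`: multiplication by the boundary distribution of `I`, i.e. convolution with its Fourier coefficients,
is bounded for the `ℓ^p(ℤ)` norm on trigonometric polynomials.  (`eLpNorm · p Measure.count` is the `ℓ^p(ℤ)` norm,
for every `1 ≤ p ≤ ∞`.) -/
def MemMpA (p : ENNReal) (I : ℂ → ℂ) : Prop :=
  ∃ K : NNReal, ∀ a : ℤ →₀ ℂ,
    eLpNorm (conv (coef I) a) p (Measure.count : Measure ℤ) ≤ K * eLpNorm (fun n : ℤ => a n) p (Measure.count : Measure ℤ)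

/-- `I` is (on the disc) a Blaschke product `c z^k ∏ (|a_i|/a_i) (a_i - z)/(1 - conj a_i z)`,
`|c| = 1`, `0 < |a_i| < 1`, `∑ (1 - |a_i|) < ∞` (finitely or infinitely many factors). -/
def IsBlaschkeProduct (I : ℂ → ℂ) : Prop :=
  ∃ (ι : Type) (a : ι → ℂ) (c : ℂ) (k : ℕ) (P : ℂ → ℂ), ‖c‖ = 1 ∧ (∀ i, 0 < ‖a i‖ ∧ ‖a i‖ < 1) ∧
    Summable (fun i => 1 - ‖a i‖) ∧
    (∀ z ∈ Metric.ball (0 : ℂ) 1,
      HasProd (fun i => ((‖a i‖ : ℂ) / a i) * ((a i - z) / (1 - (starRingEnd ℂ) (a i) * z))) (P z)) ∧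
    ∀ z ∈ Metric.ball (0 : ℂ) 1, I z = c * z ^ k * P z

lemma mem_of_bound {I : ℂ → ℂ} {K : ℝ} (hK : 0 ≤ K) (h : ∀ (a : ℤ →₀ ℂ) (s : Finset ℤ),
    ∑ n ∈ s, ‖conv (coef I) a n‖ ^ 4 ≤ K ^ 4 * ∑ m ∈ a.support, ‖a m‖ ^ 4) : MemMpA 4 I := by
  refine ⟨K.toNNReal, fun a => ?_⟩
  have h4 : (4 : ENNReal).toReal = 4 := by simp
  rw [eLpNorm_eq_lintegral_rpow_enorm_toReal (by norm_num) (by norm_num),
    eLpNorm_eq_lintegral_rpow_enorm_toReal (by norm_num) (by norm_num), lintegral_count, lintegral_count, h4]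
  have hcast : ((K.toNNReal : NNReal) : ENNReal) = ENNReal.ofReal K := rfl
  rw [hcast]
  have key : ∑' n : ℤ, ‖conv (coef I) a n‖ₑ ^ (4 : ℝ) ≤ ENNReal.ofReal K ^ (4 : ℝ) * ∑' n : ℤ, ‖a n‖ₑ ^ (4 : ℝ) := by
    rw [ENNReal.tsum_eq_iSup_sum]
    refine iSup_le fun s => ?_
    have e1 : ∀ x : ℂ, ‖x‖ₑ ^ (4 : ℝ) = ENNReal.ofReal (‖x‖ ^ 4) := by
      intro x
      rw [← ofReal_norm, ENNReal.ofReal_pow (norm_nonneg x)]
      exact_mod_cast rfl
    have e2 : ENNReal.ofReal K ^ (4 : ℝ) = ENNReal.ofReal (K ^ 4) := by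
      rw [ENNReal.ofReal_pow hK]
      exact_mod_cast rfl
    calc ∑ n ∈ s, ‖conv (coef I) a n‖ₑ ^ (4 : ℝ) = ENNReal.ofReal (∑ n ∈ s, ‖conv (coef I) a n‖ ^ 4) := by
          rw [ENNReal.ofReal_sum_of_nonneg (fun _ _ => by positivity)]
          exact Finset.sum_congr rfl fun n _ => e1 _
      _ ≤ ENNReal.ofReal (K ^ 4 * ∑ m ∈ a.support, ‖a m‖ ^ 4) := ENNReal.ofReal_le_ofReal (h a s)
      _ = ENNReal.ofReal K ^ (4 : ℝ) * ∑ m ∈ a.support, ‖a m‖ₑ ^ (4 : ℝ) := by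
          rw [ENNReal.ofReal_mul (by positivity), ENNReal.ofReal_sum_of_nonneg (fun _ _ => by positivity), e2]
          congr 1
          exact Finset.sum_congr rfl fun n _ => (e1 _).symm
      _ ≤ _ := by
          gcongr
          exact ENNReal.sum_le_tsum _
  calc (∑' n : ℤ, ‖conv (coef I) a n‖ₑ ^ (4 : ℝ)) ^ (1 / (4 : ℝ))
      ≤ (ENNReal.ofReal K ^ (4 : ℝ) * ∑' n : ℤ, ‖a n‖ₑ ^ (4 : ℝ)) ^ (1 / (4 : ℝ)) := by gcongr
    _ = ENNReal.ofReal K * (∑' n : ℤ, ‖a n‖ₑ ^ (4 : ℝ)) ^ (1 / (4 : ℝ)) := by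
        rw [ENNReal.mul_rpow_of_nonneg _ _ (by norm_num), ← ENNReal.rpow_mul]
        norm_num

/-- Vinogradov's question has a negative answer: there is an inner function in `M_4A` with the nontrivial singular
inner factor `exp(-(1+z)/(1-z))`; it is not a Blaschke product. -/
theorem result : ∃ I B : ℂ → ℂ, IsInner I ∧ IsInner B ∧
    (∀ z ∈ Metric.ball (0 : ℂ) 1, I z = Complex.exp (-((1 + z) / (1 - z))) * B z) ∧
    MemMpA 4 I ∧ ¬ IsBlaschkeProduct I := by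
  obtain ⟨G, B, K, hK, hG, hB, hG1, hB1, hGB, hGr, hBr, hbd⟩ := VG.main
  refine ⟨G, B, ⟨hG, ⟨1, hG1⟩, hGr⟩, ⟨hB, ⟨1, hB1⟩, hBr⟩, hGB, mem_of_bound hK hbd, ?_⟩
  refine not_blaschke G B hB hB1 hGB ?_
  by_contra hcon
  push Not at hcon
  have hfalse : ∀ᵐ θ : ℝ ∂volume, False := by
    filter_upwards [hBr] with θ hθ
    obtain ⟨w, hw, hlim⟩ := hθ
    have h0 : Tendsto (fun r : ℝ => B ((r : ℂ) * Complex.exp ((θ : ℂ) * Complex.I))) (𝓝[<] 1) (𝓝 0) := by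
      refine tendsto_const_nhds.congr' ?_
      have h15 : ∀ᶠ r : ℝ in nhdsWithin (1 : ℝ) (Set.Iio 1), (0 : ℝ) < r :=
        mem_nhdsWithin_of_mem_nhds (lt_mem_nhds one_pos)
      filter_upwards [h15, self_mem_nhdsWithin] with r hr1 hr2
      refine (hcon _ ?_).symm
      rw [mem_ball_zero_iff, norm_mul, Complex.norm_real, Real.norm_of_nonneg hr1.le,
        Complex.norm_exp_ofReal_mul_I, mul_one]
      exact hr2
    have h1 := tendsto_nhds_unique hlim h0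
    rw [h1, norm_zero] at hw
    exact zero_ne_one hw
  rw [ae_iff] at hfalse
  simp at hfalse

/-- The same as the negation of the question, read literally. -/
theorem vinogradov_negative :
    ¬ ∀ p : ENNReal, 1 ≤ p → p ≠ 2 → ∀ I : ℂ → ℂ, IsInner I → MemMpA p I → IsBlaschkeProduct I := by
  intro hall
  obtain ⟨I, B, hI, -, -, hM, hn⟩ := result
  exact hn (hall 4 (by norm_num) (by norm_num) I hI hM)

end Pool.Agent.Results.MP_dea278_an.SingularMultiplier
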